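import Mathlib
import Pool.Agent.X81.ErdosGallai

/-!
# MP_440a65_co, Q1: the edge-imbalance multiset is graphic

If every edge of a finite simple graph `G` joins two vertices of different degrees, then the
multiset of the imbalances `|deg u - deg v|` of the edges of `G` is the degree multiset of a simple
graph.  Proof: the Erdős–Gallai criterion (proved in `Pool.Agent.X81.ErdosGallai`), checked for a
set `S` of `k` edges of imbalance at least `k` by looking at the edges meeting the neighbourhood of
an endpoint of `S` of maximum degree.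
-/

set_option autoImplicit false

open Classical Finset

namespace Pool.Agent.Results.MP_440a65_co.ImbalanceGraphic

variable {V : Type*} [Fintype V]

/-- The imbalance of an (unordered) pair of vertices. -/
noncomputable def imb (G : SimpleGraph V) : Sym2 V → ℕ :=
  Sym2.lift ⟨fun u v => ((G.degree u : ℤ) - (G.degree v : ℤ)).natAbs, fun u v => by
    show ((G.degree u : ℤ) - (G.degree v : ℤ)).natAbs = ((G.degree v : ℤ) - (G.degree u : ℤ)).natAbs
    omega⟩

/-- The multiset `M_G` of the imbalances of the edges of `G`. -/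
noncomputable def imbMultiset (G : SimpleGraph V) : Multiset ℕ :=
  G.edgeFinset.val.map (imb G)

/-- A multiset of natural numbers is graphic if it is the degree multiset of a simple graph. -/
def IsGraphic (M : Multiset ℕ) : Prop :=
  ∃ (n : ℕ) (H : SimpleGraph (Fin n)), (univ : Finset (Fin n)).val.map (fun v => H.degree v) = M

lemma imb_mk (G : SimpleGraph V) (u v : V) :
    imb G s(u, v) = ((G.degree u : ℤ) - (G.degree v : ℤ)).natAbs := rfl

/-! ### Parity -/

lemma even_imb (G : SimpleGraph V) : Even (∑ e ∈ G.edgeFinset, imb G e) := by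
  have h1 : ∀ e ∈ G.edgeFinset, ∃ c, (∑ v, if v ∈ e then G.degree v else 0) = imb G e + 2 * c := by
    intro e he
    induction e using Sym2.ind with
    | _ a b =>
      have hab : a ≠ b := (SimpleGraph.mem_edgeFinset.mp he : G.Adj a b).ne
      have : (∑ v, if v ∈ s(a, b) then G.degree v else 0) = G.degree a + G.degree b := by
        rw [← sum_filter]
        have : univ.filter (fun v => v ∈ s(a, b)) = {a, b} := by
          ext v; simp
        rw [this, sum_pair hab]
      rw [this, imb_mk]
      rcases le_total (G.degree a) (G.degree b) with h | h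
      · exact ⟨G.degree a, by omega⟩
      · exact ⟨G.degree b, by omega⟩
  have h2 : ∃ c, (∑ e ∈ G.edgeFinset, ∑ v, if v ∈ e then G.degree v else 0) =
      (∑ e ∈ G.edgeFinset, imb G e) + 2 * c := by
    choose! c hc using h1
    refine ⟨∑ e ∈ G.edgeFinset, c e, ?_⟩
    rw [mul_sum, ← sum_add_distrib]
    exact sum_congr rfl hc
  have h3 : (∑ e ∈ G.edgeFinset, ∑ v, if v ∈ e then G.degree v else 0) =
      ∑ v, G.degree v * G.degree v := by
    rw [sum_comm]
    refine sum_congr rfl (fun v _ => ?_)
    rw [← sum_filter, sum_const, smul_eq_mul, ← SimpleGraph.incidenceFinset_eq_filter,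
      SimpleGraph.card_incidenceFinset_eq_degree]
  have h4 : ∃ c, (∑ v, G.degree v * G.degree v) = (∑ v, G.degree v) + 2 * c := by
    have : ∀ v ∈ (univ : Finset V), ∃ c, G.degree v * G.degree v = G.degree v + 2 * c := by
      intro v _
      generalize G.degree v = m
      rcases Nat.even_mul_pred_self m with ⟨c, hc⟩
      refine ⟨c, ?_⟩
      rcases m with _ | m
      · simp at hc ⊢; omega
      · simp only [Nat.add_sub_cancel] at hc
        have : (m + 1) * (m + 1) = (m + 1) * m + (m + 1) := by ring
        omega
    choose! c hc using this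
    refine ⟨∑ v, c v, ?_⟩
    rw [mul_sum, ← sum_add_distrib]
    exact sum_congr rfl hc
  obtain ⟨c, hc⟩ := h2
  obtain ⟨c', hc'⟩ := h4
  have h5 := G.sum_degrees_eq_twice_card_edges
  rw [Nat.even_iff]
  omega

/-! ### The counting lemma -/

/-- edges avoiding `u` and meeting `W` -/
noncomputable def bd (G : SimpleGraph V) (u : V) (W : Finset V) : Finset (Sym2 V) :=
  G.edgeFinset.filter (fun e => u ∉ e ∧ ∃ w ∈ W, w ∈ e)

lemma count_bd (G : SimpleGraph V) (u : V) (W : Finset V) (hW : ∀ w ∈ W, G.Adj u w) :
    ∑ w ∈ W, (G.degree w - 1) ≤ (bd G u W).card + W.card.choose 2 := by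
  have hu : u ∉ W := fun h => (hW u h).ne rfl
  have h1 : ∀ w ∈ W, G.degree w - 1 ≤ ((bd G u W).filter (fun e => w ∈ e)).card := by
    intro w hw
    have hne : w ≠ u := fun h => hu (h ▸ hw)
    have hinj : Set.InjOn (fun z => s(w, z)) (((G.neighborFinset w).erase u : Finset V) : Set V) := by
      intro a _ b _ hab
      exact Sym2.congr_right.mp hab
    have hmem : u ∈ G.neighborFinset w := by simpa using (hW w hw).symm
    rw [← SimpleGraph.card_neighborFinset_eq_degree, ← card_erase_of_mem hmem,
      ← card_image_of_injOn hinj]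
    apply card_le_card
    intro e he
    obtain ⟨z, hz, rfl⟩ := mem_image.mp he
    rw [mem_erase, SimpleGraph.mem_neighborFinset] at hz
    rw [mem_filter, bd, mem_filter, SimpleGraph.mem_edgeFinset]
    refine ⟨⟨hz.2, ?_, w, hw, by simp⟩, by simp⟩
    rw [Sym2.mem_iff]
    rintro (h | h)
    · exact hne h.symm
    · exact hz.1 h.symm
  have h2 : ∑ w ∈ W, (G.degree w - 1) ≤ ∑ e ∈ bd G u W, (W.filter (fun w => w ∈ e)).card := by
    refine (sum_le_sum h1).trans (le_of_eq ?_)
    simp_rw [card_filter]
    rw [sum_comm]
  have h3 : ∀ e ∈ bd G u W, (W.filter (fun w => w ∈ e)).card ≤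
      1 + (if e ∈ W.offDiag.image (fun p : V × V => s(p.1, p.2)) then 1 else 0) := by
    intro e he
    have he2 : e ∈ G.edgeFinset := (mem_filter.mp he).1
    induction e using Sym2.ind with
    | _ a b =>
      have hab : a ≠ b := (SimpleGraph.mem_edgeFinset.mp he2 : G.Adj a b).ne
      by_cases h : a ∈ W ∧ b ∈ W
      · rw [if_pos]
        · have : W.filter (fun w => w ∈ s(a, b)) ⊆ {a, b} := by
            intro w hw
            have := (mem_filter.mp hw).2
            simpa using this
          exact (card_le_card this).trans card_le_two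
        · exact mem_image.mpr ⟨(a, b), mem_offDiag.mpr ⟨h.1, h.2, hab⟩, rfl⟩
      · have : (W.filter (fun w => w ∈ s(a, b))).card ≤ 1 := by
          rw [card_le_one]
          intro x hx y hy
          have hx' := mem_filter.mp hx
          have hy' := mem_filter.mp hy
          rw [Sym2.mem_iff] at hx' hy'
          rcases hx'.2 with h1 | h1 <;> rcases hy'.2 with h2 | h2
          · rw [h1, h2]
          · exact absurd ⟨h1 ▸ hx'.1, h2 ▸ hy'.1⟩ h
          · exact absurd ⟨h2 ▸ hy'.1, h1 ▸ hx'.1⟩ h
          · rw [h1, h2]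
        omega
  refine h2.trans ((sum_le_sum h3).trans ?_)
  rw [sum_add_distrib, sum_const, smul_eq_mul, mul_one, ← card_filter]
  have h4 : ((bd G u W).filter
      (fun e => e ∈ W.offDiag.image (fun p : V × V => s(p.1, p.2)))).card ≤ W.card.choose 2 := by
    have h5 : (W.offDiag.image (fun p : V × V => s(p.1, p.2))).card = W.card.choose 2 := by
      have := Sym2.card_image_offDiag W
      convert this using 2
      ext e
      simp [Function.uncurry]
    rw [← h5]
    apply card_le_card
    intro e he
    exact (mem_filter.mp he).2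
  omega

/-- the arithmetic at the end -/
lemma arith (k D s t x y : ℤ) (hx0 : 0 ≤ x) (hs : 1 ≤ s) (ht : 0 ≤ t) (hk : k = s + t)
    (hy : y = D - 1 - k) (hy0 : 0 ≤ y) (hx : x ≤ D - s) :
    0 ≤ 2 * (k - 1) * t + x * (2 * y - x + 1) := by
  by_cases h : x ≤ 2 * y + 1
  · have h1 : 0 ≤ x * (2 * y - x + 1) := mul_nonneg hx0 (by linarith)
    have h2 : 0 ≤ 2 * (k - 1) * t := by
      apply mul_nonneg _ ht
      linarith
    linarith
  · have hx' : x ≤ y + 1 + t := by linarith
    have h3 : x * (x - 2 * y - 1) ≤ (y + 1 + t) * (t - y) := by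
      apply mul_le_mul hx' (by linarith) (by linarith) (by linarith)
    have h4 : (y + 1 + t) * (t - y) ≤ t * (t + 1) := by nlinarith
    have h5 : t * (t + 1) ≤ 2 * (k - 1) * t := by
      rcases ht.lt_or_eq with h6 | h6
      · have : t + 1 ≤ 2 * (k - 1) := by
          have : 1 ≤ t := h6
          linarith
        nlinarith
      · rw [← h6]; simp
    nlinarith

/-- The Erdős–Gallai inequality for edge sets inside the Durfee square. -/
lemma eg_ineq (G : SimpleGraph V) (hpos : ∀ e ∈ G.edgeFinset, 0 < imb G e)
    (S : Finset (Sym2 V)) (hS : S ⊆ G.edgeFinset) (hdur : ∀ e ∈ S, S.card ≤ imb G e) :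
    ∑ e ∈ S, imb G e ≤ S.card * (S.card - 1) + ∑ e ∈ G.edgeFinset \ S, min S.card (imb G e) := by
  rcases S.eq_empty_or_nonempty with h0 | hne
  · subst h0; simp
  have hk1 : 1 ≤ S.card := card_pos.mpr hne
  set k := S.card with hk
  -- a vertex of maximum degree among the endpoints of `S`
  have hend : ∃ u : V, (∃ e ∈ S, u ∈ e) ∧ ∀ v, (∃ e ∈ S, v ∈ e) → G.degree v ≤ G.degree u := by
    have hne2 : (univ.filter (fun v => ∃ e ∈ S, v ∈ e)).Nonempty := by
      obtain ⟨e, he⟩ := hne
      induction e using Sym2.ind with
      | _ a b => exact ⟨a, mem_filter.mpr ⟨mem_univ _, _, he, by simp⟩⟩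
    obtain ⟨u, hu, hmax⟩ := exists_max_image _ (fun v => G.degree v) hne2
    exact ⟨u, (mem_filter.mp hu).2, fun v hv => hmax v (mem_filter.mpr ⟨mem_univ _, hv⟩)⟩
  obtain ⟨u, ⟨e0, he0, hue0⟩, hmax⟩ := hend
  set D := G.degree u with hD
  have hdeg1 : ∀ a b, G.Adj a b → 1 ≤ G.degree a := by
    intro a b h
    exact (G.degree_pos_iff_exists_adj a).mpr ⟨b, h⟩
  have himb : ∀ e ∈ S, imb G e + 1 ≤ D := by
    intro e he
    have hE := hS he
    have hd := hdur e he
    induction e using Sym2.ind with
    | _ a b =>
      have hab : G.Adj a b := SimpleGraph.mem_edgeFinset.mp hE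
      have h1 := hdeg1 a b hab
      have h2 := hdeg1 b a hab.symm
      have h3 := hmax a ⟨_, he, by simp⟩
      have h4 := hmax b ⟨_, he, by simp⟩
      rw [imb_mk]
      omega
  have hDk : k + 1 ≤ D := by
    have := himb e0 he0
    have := hdur e0 he0
    omega
  have hsumS : ∑ e ∈ S, imb G e ≤ k * (D - 1) := by
    rw [hk, ← smul_eq_mul, ← sum_const]
    apply sum_le_sum
    intro e he
    have := himb e he
    omega
  -- the neighbourhood of `u`
  set N := G.neighborFinset u with hN
  have hNc : N.card = D := G.card_neighborFinset_eq_degree u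
  set f : V → Sym2 V := fun w => s(u, w) with hf
  have hfinj : Function.Injective f := by
    intro a b hab
    exact Sym2.congr_right.mp hab
  set Q := N.filter (fun w => f w ∈ S) with hQ
  set P := N.filter (fun w => ¬ f w ∈ S) with hP
  have hQP : Q.card + P.card = D := by
    rw [← hNc, hQ, hP]
    exact card_filter_add_card_filter_not _
  have hQ1 : 1 ≤ Q.card := by
    apply card_pos.mpr
    induction e0 using Sym2.ind with
    | _ a b =>
      have hab : G.Adj a b := SimpleGraph.mem_edgeFinset.mp (hS he0)
      rw [Sym2.mem_iff] at hue0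
      rcases hue0 with h | h
      · refine ⟨b, mem_filter.mpr ⟨?_, ?_⟩⟩
        · rw [hN, SimpleGraph.mem_neighborFinset, h]; exact hab
        · rw [hf]; simp only; rw [h]; exact he0
      · refine ⟨a, mem_filter.mpr ⟨?_, ?_⟩⟩
        · rw [hN, SimpleGraph.mem_neighborFinset, h]; exact hab.symm
        · rw [hf]; simp only; rw [h, Sym2.eq_swap]; exact he0
  set W := P.filter (fun w => imb G (f w) < k) with hW
  have hWadj : ∀ w ∈ W, G.Adj u w := by
    intro w hw
    have := (mem_filter.mp (mem_filter.mp hw).1).1
    simpa [hN] using this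
  have hcount := count_bd G u W hWadj
  set B := bd G u W with hB
  have hBS : (B ∩ S).card + Q.card ≤ k := by
    rw [← card_image_of_injective Q hfinj, ← card_union_of_disjoint]
    · apply card_le_card
      intro e he
      rcases mem_union.mp he with h | h
      · exact (mem_inter.mp h).2
      · obtain ⟨w, hw, rfl⟩ := mem_image.mp h
        exact (mem_filter.mp hw).2
    · rw [disjoint_left]
      intro e h1 h2
      obtain ⟨w, hw, rfl⟩ := mem_image.mp h2
      have := (mem_filter.mp (mem_inter.mp h1).1).2.1
      exact this (by simp [hf])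
  have hBsplit : (B \ S).card + (B ∩ S).card = B.card := card_sdiff_add_card_inter B S
  -- the lower bound of the right-hand side
  have hlow : ∑ w ∈ P, min k (imb G (f w)) + (B \ S).card ≤
      ∑ e ∈ G.edgeFinset \ S, min k (imb G e) := by
    have h1 : ∑ w ∈ P, min k (imb G (f w)) = ∑ e ∈ P.image f, min k (imb G e) := by
      rw [sum_image (fun a _ b _ h => hfinj h)]
    have h2 : (B \ S).card ≤ ∑ e ∈ B \ S, min k (imb G e) := by
      rw [card_eq_sum_ones]
      apply sum_le_sum
      intro e he
      have h3 := hpos e (mem_filter.mp (mem_sdiff.mp he).1).1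
      exact le_min hk1 h3
    have h3 : Disjoint (P.image f) (B \ S) := by
      rw [disjoint_left]
      intro e h1 h2
      obtain ⟨w, hw, rfl⟩ := mem_image.mp h1
      have := (mem_filter.mp (mem_sdiff.mp h2).1).2.1
      exact this (by simp [hf])
    rw [h1]
    refine (Nat.add_le_add_left h2 _).trans ?_
    rw [← sum_union h3]
    apply sum_le_sum_of_subset
    intro e he
    rcases mem_union.mp he with h | h
    · obtain ⟨w, hw, rfl⟩ := mem_image.mp h
      have hw' := mem_filter.mp hw
      refine mem_sdiff.mpr ⟨?_, hw'.2⟩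
      rw [SimpleGraph.mem_edgeFinset]
      simpa [hN, hf] using hw'.1
    · exact mem_sdiff.mpr ⟨(mem_filter.mp (mem_sdiff.mp h).1).1, (mem_sdiff.mp h).2⟩
  have hPsum : ∑ w ∈ P, min k (imb G (f w)) =
      ∑ w ∈ W, imb G (f w) + (P.card - W.card) * k := by
    rw [← sum_filter_add_sum_filter_not P (fun w => imb G (f w) < k)]
    congr 1
    · apply sum_congr rfl
      intro w hw
      have := (mem_filter.mp hw).2
      exact min_eq_right this.le
    · have h1 : (P.filter (fun w => ¬ imb G (f w) < k)).card = P.card - W.card := by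
        have := card_filter_add_card_filter_not (s := P) (fun w => imb G (f w) < k)
        rw [← hW] at this
        omega
      rw [← h1, ← smul_eq_mul, ← sum_const]
      apply sum_congr rfl
      intro w hw
      have := (mem_filter.mp hw).2
      exact min_eq_left (not_lt.mp this)
  have hWsum : W.card * (D - 1) ≤ ∑ w ∈ W, imb G (f w) + ∑ w ∈ W, (G.degree w - 1) := by
    rw [← sum_add_distrib, ← smul_eq_mul, ← sum_const]
    apply sum_le_sum
    intro w hw
    have h1 := hdeg1 w u (hWadj w hw).symm
    rw [hf]; simp only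
    rw [imb_mk]
    omega
  have hWP : W.card ≤ P.card := card_le_card (filter_subset _ _)
  have hch : 2 * W.card.choose 2 = W.card * (W.card - 1) := by
    rw [Nat.choose_two_right]
    exact Nat.mul_div_cancel' (Nat.even_mul_pred_self _).two_dvd
  -- final arithmetic
  have har := arith (k : ℤ) D Q.card (k - Q.card) W.card (D - 1 - k) (by positivity)
    (by exact_mod_cast hQ1) (by have : Q.card ≤ k := by omega
                                have : (Q.card : ℤ) ≤ k := by exact_mod_cast this
                                linarith) (by ring) rfl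
    (by have : ((k : ℤ) + 1) ≤ D := by exact_mod_cast hDk
        linarith) (by
          have h1 : (Q.card : ℤ) + P.card = D := by exact_mod_cast hQP
          have h2 : (W.card : ℤ) ≤ P.card := by exact_mod_cast hWP
          linarith)
  refine hsumS.trans (le_trans ?_ (Nat.add_le_add_left hlow _))
  rw [hPsum]
  -- cast everything to ℤ
  zify [hk1, hWP, (by omega : 1 ≤ D)] at *
  have hch' : (2 : ℤ) * ((W.card.choose 2 : ℕ) : ℤ) = W.card * (W.card - 1) := by
    rcases Nat.eq_zero_or_pos W.card with h | h
    · rw [h]; simp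
    · have : ((W.card - 1 : ℕ) : ℤ) = (W.card : ℤ) - 1 := by
        push_cast [Nat.cast_sub h]; rfl
      rw [← this]
      exact_mod_cast hch
  nlinarith

theorem result (V : Type*) [Fintype V] (G : SimpleGraph V)
    (hpos : ∀ e ∈ G.edgeFinset, 0 < imb G e) : IsGraphic (imbMultiset G) := by
  have hEG : ∀ S C : Finset {e // e ∈ G.edgeFinset}, (∀ x, x ∈ C ↔ x ∉ S) →
      (∀ i ∈ S, S.card ≤ imb G i.1) →
      ∑ i ∈ S, imb G i.1 ≤ S.card * (S.card - 1) + ∑ i ∈ C, min S.card (imb G i.1) := by
    intro S C hC hdur
    have h1 := eg_ineq G hpos (S.map (Function.Embedding.subtype _)) (by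
      intro e he
      obtain ⟨e', _, rfl⟩ := mem_map.mp he
      exact e'.2) (by
      intro e he
      obtain ⟨e', he', rfl⟩ := mem_map.mp he
      rw [card_map]
      exact hdur e' he')
    rw [card_map, sum_map] at h1
    have h2 : G.edgeFinset \ (S.map (Function.Embedding.subtype _)) =
        C.map (Function.Embedding.subtype _) := by
      ext e
      simp only [mem_sdiff, mem_map, Function.Embedding.coe_subtype]
      constructor
      · rintro ⟨h3, h4⟩
        exact ⟨⟨e, h3⟩, (hC _).mpr (fun h5 => h4 ⟨_, h5, rfl⟩), rfl⟩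
      · rintro ⟨e', h3, rfl⟩
        refine ⟨e'.2, ?_⟩
        rintro ⟨e'', h4, h5⟩
        exact (hC _).mp h3 (Subtype.ext h5 ▸ h4)
    rw [h2, sum_map] at h1
    exact h1
  obtain ⟨H, hH⟩ := Pool.Agent.X81.ErdosGallai.erdos_gallai
    (fun e : {e // e ∈ G.edgeFinset} => imb G e.1) (by
      rw [sum_coe_sort G.edgeFinset (fun e => imb G e)]
      exact even_imb G) hEG
  let n := Fintype.card {e // e ∈ G.edgeFinset}
  let φ : {e // e ∈ G.edgeFinset} ≃ Fin n := Fintype.equivFin _
  obtain ⟨H', hH'⟩ : ∃ H' : SimpleGraph (Fin n), ∀ a b, H'.Adj a b ↔ H.Adj (φ.symm a) (φ.symm b) :=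
    ⟨H.comap φ.symm, fun a b => Iff.rfl⟩
  refine ⟨n, H', ?_⟩
  have hdeg : ∀ v : Fin n, H'.degree v = imb G (φ.symm v).1 := by
    intro v
    rw [← hH (φ.symm v)]
    unfold Pool.Agent.X81.ErdosGallai.dg
    rw [← SimpleGraph.card_neighborFinset_eq_degree, ← card_map φ.symm.toEmbedding]
    congr 1
    ext x
    simp only [mem_map, SimpleGraph.mem_neighborFinset, hH', mem_filter,
      mem_univ, true_and, Equiv.coe_toEmbedding]
    constructor
    · rintro ⟨y, hy, rfl⟩; exact hy
    · intro h
      exact ⟨φ x, by simpa using h, by simp⟩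
  refine (Multiset.map_congr rfl (fun v _ => hdeg v)).trans ?_
  unfold imbMultiset
  have h3 : (univ : Finset (Fin n)).val.map (fun v => imb G (φ.symm v).1) =
      ((univ : Finset (Fin n)).map φ.symm.toEmbedding).val.map (fun e => imb G e.1) := by
    rw [map_val, Multiset.map_map]
    rfl
  rw [h3]
  have h4 : (univ : Finset (Fin n)).map φ.symm.toEmbedding = univ := by simp
  rw [h4]
  have h5 : (univ : Finset {e // e ∈ G.edgeFinset}).val.map (fun e => imb G e.1) =
      ((univ : Finset {e // e ∈ G.edgeFinset}).map (Function.Embedding.subtype _)).val.map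
        (imb G) := by
    rw [map_val, Multiset.map_map]
    rfl
  rw [h5]
  congr 2
  ext e
  simp

end Pool.Agent.Results.MP_440a65_co.ImbalanceGraphic
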